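import Pool.Agent.MWGQ.Stmts

/-!
# MWGQ, row EXP: the exact period
-/

namespace Pool.Agent.MWGQ.H74

open Pool.Agent.Helper14_MV Pool.Agent.Helper2_MV
open Pool.Agent.MWK (pre)

variable {β : FIC}

theorem z_app {a b : ℕ} (h : RR β (Z a) (Z b)) (c : ℕ) : RR β (Z (a + c)) (Z (b + c)) := by
  have h2 := RR.append h (RR.refl (β := β) (Z c))
  rwa [List.replicate_append_replicate, List.replicate_append_replicate] at h2

theorem z_r {a b : ℕ} (h : RR β (Z a) (Z b)) : β.r (lx ^ a) (lx ^ b) := by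
  have e : ∀ k : ℕ, FreeMonoid.ofList (Z k) = lx ^ k := by
    intro k
    induction k with
    | zero => rfl
    | succ k ih =>
      rw [pow_succ', ← ih]
      rfl
  have h2 : β.r (FreeMonoid.ofList (Z a)) (FreeMonoid.ofList (Z b)) := h
  rwa [e, e] at h2

theorem z_per {n : ℕ} (h : RR β (Z 2) (Z (n + 2))) (a k : ℕ) (ha : 2 ≤ a) :
    RR β (Z a) (Z (a + n * k)) := by
  induction k with
  | zero => exact RR.refl _
  | succ k ih =>
    refine β.trans ih ?_
    have h2 := z_app h (a + n * k - 2)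
    rw [show 2 + (a + n * k - 2) = a + n * k by omega,
      show n + 2 + (a + n * k - 2) = a + n * (k + 1) by rw [mul_add]; omega] at h2
    exact h2

theorem z_low (hcr : ∀ k : ℕ, 1 ≤ k → ¬ β.r (lx ^ (k + 1)) lx) {a b : ℕ}
    (h : RR β (Z a) (Z b)) (ha : a ≤ 1) : b = a := by
  by_contra hne
  have key : ∀ k : ℕ, 1 ≤ k → ¬ RR β (Z (k + 1)) (Z 1) := by
    intro k hk h1
    have := z_r h1
    rw [pow_one] at this
    exact hcr k hk this
  rcases Nat.lt_or_ge b a with hb | hb
  · have h1 : a = 1 := by omega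
    have h0 : b = 0 := by omega
    subst h1; subst h0
    exact key 1 le_rfl (z_app h 1)
  · rcases Nat.eq_zero_or_pos a with h0 | h0
    · subst h0
      exact key b (by omega) (RR.symm (z_app h 1))
    · have h1 : a = 1 := by omega
      subst h1
      refine key (b - 1) (by omega) ?_
      rw [show b - 1 + 1 = b by omega]
      exact RR.symm h

/-- **EXP** -/
theorem exp : ExpStmt := by
  intro n β hn hper hcr
  have hz : RR β (Z 2) (Z (n + 2)) := hper
  classical
  have hex : ∃ d, 1 ≤ d ∧ RR β (Z 2) (Z (d + 2)) := ⟨n, hn, hz⟩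
  obtain ⟨d, ⟨hd1, hdp⟩, hmin⟩ : ∃ d, (1 ≤ d ∧ RR β (Z 2) (Z (d + 2))) ∧
      ∀ m < d, ¬ (1 ≤ m ∧ RR β (Z 2) (Z (m + 2))) :=
    ⟨Nat.find hex, Nat.find_spec hex, fun m hm => Nat.find_min hex hm⟩
  have claim : ∀ a g : ℕ, 2 ≤ a → RR β (Z a) (Z (a + g)) → RR β (Z 2) (Z (2 + g)) := by
    intro a g ha h
    have h1 := z_per hz 2 a le_rfl
    have h2 := z_per hz (2 + g) a (by omega)
    have hna : a ≤ n * a := Nat.le_mul_of_pos_left a hn
    have h3 := z_app h (2 + n * a - a)
    rw [show a + (2 + n * a - a) = 2 + n * a by omega,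
      show a + g + (2 + n * a - a) = 2 + g + n * a by omega] at h3
    exact β.trans h1 (β.trans h3 (RR.symm h2))
  have claim2 : ∀ g : ℕ, RR β (Z 2) (Z (2 + g)) → d ∣ g := by
    intro g h
    have hr : g % d < d := Nat.mod_lt _ hd1
    have h1 := z_per hdp (2 + g % d) (g / d) (by omega)
    rw [show 2 + g % d + d * (g / d) = 2 + g by rw [add_assoc, Nat.mod_add_div]] at h1
    have h2 : RR β (Z 2) (Z (2 + g % d)) := β.trans h (RR.symm h1)
    by_contra hnd
    have hpos : 1 ≤ g % d := Nat.one_le_iff_ne_zero.2 (fun h0 => hnd (Nat.dvd_of_mod_eq_zero h0))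
    apply hmin _ hr
    refine ⟨hpos, ?_⟩
    rw [add_comm]
    exact h2
  have claim3 : ∀ a b : ℕ, a ≤ b → RR β (Z a) (Z b) → a ≡ b [MOD d] := by
    intro a b hab h
    rcases Nat.lt_or_ge a 2 with ha | ha
    · rw [z_low hcr h (by omega)]
    · obtain ⟨g, rfl⟩ := Nat.exists_eq_add_of_le hab
      have h2 := claim2 g (claim a g ha h)
      exact (Nat.modEq_iff_dvd' hab).2 (by simpa using h2)
  refine ⟨d, hd1, ?_, hdp, fun a b h ha => z_low hcr h ha, ?_⟩
  · exact claim2 n (by rw [add_comm]; exact hz)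
  · intro a b h
    rcases Nat.le_total a b with hab | hab
    · exact claim3 a b hab h
    · exact (claim3 b a hab (RR.symm h)).symm

end Pool.Agent.MWGQ.H74
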